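import Pool.Agent.EVN.Defs
import Pool.Agent.RAT.D.Cut2

/-!
EVN, part A: walks from an arbitrary vertex `v`: finite sets, their number does not depend on `v`.
-/

namespace Pool.Agent.EVN

open Pool.Agent.Hhelper14.SAW Pool.Agent.RAT

lemma Wk_o (m : ℕ) : Wk o m = {P | IsWalk m P} := rfl

lemma tv_adj {v x y : ℤ × ℤ} (hv : hon v) (h : Adj x y) : Adj (tv v x) (tv v y) := by
  obtain ⟨v1, v2⟩ := v
  obtain ⟨x1, x2⟩ := x
  obtain ⟨y1, y2⟩ := y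
  obtain ⟨h1, h2, h3⟩ := h
  simp only [hon] at hv h1 h2
  simp only [U, Prod.mk_sub_mk] at h3
  unfold Adj tv
  split_ifs with h0 <;> simp only [Prod.mk_sub_mk, Prod.mk_add_mk, hon, U] at h0 ⊢ <;> omega

lemma tv_inj (v : ℤ × ℤ) : Function.Injective (tv v) := fun x y h => by
  rw [← tw_tv v x, h, tw_tv]

lemma map_tv_mem {v : ℤ × ℤ} {m : ℕ} {P : List (ℤ × ℤ)} (hv : hon v) (h : IsWalk m P) : P.map (tv v) ∈ Wk v m := by
  obtain ⟨h1, h2, h3, h4⟩ := h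
  refine ⟨by simpa using h1, h2.map (tv_inj v), ?_, ?_⟩
  · unfold HChain at h3 ⊢
    rw [List.isChain_map]
    exact h3.imp fun _ _ h => tv_adj hv h
  · rw [List.getLast?_map, h4]
    simp [tv_o]

lemma Wk_eq {v : ℤ × ℤ} (hv : hon v) (m : ℕ) : Wk v m = (fun P : List (ℤ × ℤ) => P.map (tv v)) '' {P | IsWalk m P} := by
  ext P
  constructor
  · rintro ⟨h1, h2, h3, h4⟩
    refine ⟨P.map (tw v), isWalk_map_tw hv h1 h2 h3 h4, ?_⟩
    simp only [List.map_map]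
    conv_rhs => rw [← List.map_id P]
    refine List.map_congr_left fun z _ => ?_
    simp [tv_tw]
  · rintro ⟨Q, hQ, rfl⟩
    exact map_tv_mem hv hQ

lemma Wk_finite {v : ℤ × ℤ} (hv : hon v) (m : ℕ) : (Wk v m).Finite := by
  rw [Wk_eq hv]
  exact (walk_finite m).image _

lemma Wk_ncard {v : ℤ × ℤ} (hv : hon v) (m : ℕ) : (Wk v m).ncard = an m := by
  rw [Wk_eq hv, Set.ncard_image_of_injective _ (List.map_injective_iff.2 (tv_inj v))]
  rfl

lemma Wa_finite {v : ℤ × ℤ} (hv : hon v) (m : ℕ) (S : Set (ℤ × ℤ)) : (Wa v m S).Finite :=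
  (Wk_finite hv m).subset fun _ h => h.1

lemma Wa_ncard_le {v : ℤ × ℤ} (hv : hon v) (m : ℕ) (S : Set (ℤ × ℤ)) : (Wa v m S).ncard ≤ an m := by
  rw [← Wk_ncard hv m]
  exact Set.ncard_le_ncard (fun _ h => h.1) (Wk_finite hv m)

lemma Wa_anti {v : ℤ × ℤ} (hv : hon v) (m : ℕ) {S T : Set (ℤ × ℤ)} (h : S ⊆ T) : (Wa v m T).ncard ≤ (Wa v m S).ncard :=
  Set.ncard_le_ncard (fun _ g => ⟨g.1, fun z hz hS => g.2 z hz (h hS)⟩) (Wa_finite hv m S)

end Pool.Agent.EVN
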