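import Pool.Agent.EVN.A.Rat
import Pool.Agent.EVN.A.Walks

/-!
EVN, part A: the mixture over the lengths `n - j`, `j < J`. The shift `j -> j + k` costs `O(k / J)`.
-/

namespace Pool.Agent.EVN

open Finset Pool.Agent.Hhelper14.SAW Pool.Agent.RAT Pool.Agent.HHP
open scoped ENNReal

lemma hon_o : hon o := by decide

lemma hon_o' : hon o' := by decide

lemma Az_eq (n J : ℕ) : Az n J = ∑ j ∈ range J, tE (n - j) := by
  unfold Az tE
  simp only [Wk_ncard hon_o]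

lemma Az_ne_top (n J : ℕ) : Az n J ≠ ∞ := by
  rw [Az_eq]
  exact ENNReal.sum_ne_top.2 fun _ _ => tE_ne_top _

lemma Az_ne_zero (n : ℕ) {J : ℕ} (hJ : 1 ≤ J) : Az n J ≠ 0 := by
  rw [Az_eq]
  intro h
  exact tE_ne_zero _ ((sum_eq_zero_iff.1 h) 0 (mem_range.2 hJ))

/-- `J tE n` and `Az n J` are comparable, and the terms too. -/
theorem Az_cmp : ∃ C : ℕ, 1 ≤ C ∧ ∀ n J : ℕ, 32 * J ^ 5 ≤ n →
    J * tE n ≤ C * Az n J ∧ Az n J ≤ C * (J * tE n) ∧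
      (∀ i, i < 2 * J → tE n ≤ C * tE (n - i) ∧ tE (n - i) ≤ C * tE n) ∧
      ∀ i, i < 2 * J → tE (2 * n) ≤ C * tE (2 * n - i) := by
  obtain ⟨C, hC, h⟩ := tE_cmp
  refine ⟨C, hC, fun n J hn => ?_⟩
  have key : ∀ i, i < 2 * J → i ^ 5 + i ≤ n := by
    intro i hi
    obtain ⟨k, hk⟩ : ∃ k, 2 * J = k + 1 := ⟨2 * J - 1, by omega⟩
    have h1 : i ^ 5 ≤ k ^ 5 := Nat.pow_le_pow_left (by omega) 5
    have h2 : 32 * J ^ 5 = (k + 1) ^ 5 := by rw [← hk]; ring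
    have h3 : (k + 1) ^ 5 = k ^ 5 + (5 * k ^ 4 + 10 * k ^ 3 + 10 * k ^ 2 + 4 * k) + k + 1 := by ring
    have h4 : k ^ 5 + k ≤ (k + 1) ^ 5 := by rw [h3]; omega
    omega
  refine ⟨?_, ?_, fun i hi => h n i (key i hi), fun i hi => (h (2 * n) i (by have := key i hi; omega)).1⟩
  · rw [Az_eq, mul_sum]
    calc (J : ℝ≥0∞) * tE n = ∑ _j ∈ range J, tE n := by rw [sum_const, card_range, nsmul_eq_mul]
      _ ≤ _ := sum_le_sum fun j hj => (h n j (key j (by have := mem_range.1 hj; omega))).1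
  · rw [Az_eq]
    calc ∑ j ∈ range J, tE (n - j) ≤ ∑ _j ∈ range J, C * tE n :=
          sum_le_sum fun j hj => (h n j (key j (by have := mem_range.1 hj; omega))).2
      _ = _ := by rw [sum_const, card_range, nsmul_eq_mul]; ring

/-- Shift of the mixture. -/
theorem shiftE : ∃ C : ℕ, 1 ≤ C ∧ ∀ n J : ℕ, 1 ≤ J → 32 * J ^ 5 ≤ n → ∀ f : ℕ → ℝ≥0∞,
    (∀ i, i < 2 * J → f i ≤ tE (n - i)) → ∀ k, k ≤ J →
      ∑ j ∈ range J, f (j + k) ≤ ∑ j ∈ range J, f j + C * (k / J) * Az n J ∧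
      ∑ j ∈ range J, f j ≤ ∑ j ∈ range J, f (j + k) + C * (k / J) * Az n J := by
  obtain ⟨C, hC, h⟩ := Az_cmp
  refine ⟨C ^ 2, Nat.one_le_pow _ _ hC, fun n J hJ hn f hf k hk => ?_⟩
  obtain ⟨h1, -, h3, -⟩ := h n J hn
  have hJ0 : (J : ℝ≥0∞) ≠ 0 := by exact_mod_cast (by omega : J ≠ 0)
  have hJt : (J : ℝ≥0∞) ≠ ∞ := ENNReal.natCast_ne_top J
  have g1 : ∑ j ∈ range (J + k), f j = (∑ j ∈ range J, f j) + ∑ j ∈ range k, f (J + j) := sum_range_add f J k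
  have g2 : ∑ j ∈ range (k + J), f j = (∑ j ∈ range k, f j) + ∑ j ∈ range J, f (k + j) := sum_range_add f k J
  have g3 : ∑ j ∈ range J, f (j + k) = ∑ j ∈ range J, f (k + j) := sum_congr rfl fun j _ => by rw [add_comm]
  rw [add_comm k J] at g2
  have b1 : ∀ i, i < 2 * J → f i ≤ C * tE n := fun i hi => (hf i hi).trans (h3 i hi).2
  have m1 : (k : ℝ≥0∞) * (C * tE n) ≤ (C ^ 2 : ℕ) * (k / J) * Az n J := by
    have e : tE n = (J : ℝ≥0∞)⁻¹ * (J * tE n) := by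
      rw [← mul_assoc, ENNReal.inv_mul_cancel hJ0 hJt, one_mul]
    calc (k : ℝ≥0∞) * (C * tE n) = k * (C * ((J : ℝ≥0∞)⁻¹ * (J * tE n))) := by rw [← e]
      _ ≤ k * (C * ((J : ℝ≥0∞)⁻¹ * (C * Az n J))) := by gcongr
      _ = _ := by rw [div_eq_mul_inv]; push_cast; ring
  have b2 : ∑ j ∈ range k, f (J + j) ≤ (C ^ 2 : ℕ) * (k / J) * Az n J := by
    refine le_trans ?_ m1
    calc ∑ j ∈ range k, f (J + j) ≤ ∑ _j ∈ range k, C * tE n :=
          sum_le_sum fun j hj => b1 _ (by have := mem_range.1 hj; omega)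
      _ = _ := by rw [sum_const, card_range, nsmul_eq_mul]
  have b3 : ∑ j ∈ range k, f j ≤ (C ^ 2 : ℕ) * (k / J) * Az n J := by
    refine le_trans ?_ m1
    calc ∑ j ∈ range k, f j ≤ ∑ _j ∈ range k, C * tE n :=
          sum_le_sum fun j hj => b1 _ (by have := mem_range.1 hj; omega)
      _ = _ := by rw [sum_const, card_range, nsmul_eq_mul]
  constructor
  · rw [g3]
    calc ∑ j ∈ range J, f (k + j) ≤ (∑ j ∈ range k, f j) + ∑ j ∈ range J, f (k + j) := le_add_self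
      _ = (∑ j ∈ range J, f j) + ∑ j ∈ range k, f (J + j) := by rw [← g2, g1]
      _ ≤ _ := by gcongr
  · rw [g3]
    calc ∑ j ∈ range J, f j ≤ (∑ j ∈ range J, f j) + ∑ j ∈ range k, f (J + j) := le_self_add
      _ = (∑ j ∈ range k, f j) + ∑ j ∈ range J, f (k + j) := by rw [← g2, g1]
      _ ≤ _ := by rw [add_comm]; gcongr

end Pool.Agent.EVN
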