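import Pool.Agent.EVN.Stmt
import Pool.Agent.EVN.A.Shift

/-!
EVN, part A: the walks from `v` which begin with `η = y :: η'` (latest vertex first) correspond to the walks from `y` which
avoid `η'`.
-/

namespace Pool.Agent.EVN

open Finset Pool.Agent.Hhelper14.SAW Pool.Agent.RAT Pool.Agent.HHP
open scoped ENNReal

lemma start_eq {v y : ℤ × ℤ} {m : ℕ} {η' : List (ℤ × ℤ)} (h0 : η' ≠ []) (h1 : (y :: η').Nodup) (h2 : HChain (y :: η'))
    (h3 : (y :: η').getLast? = some v) (hm : η'.length ≤ m) :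
    {w | w ∈ Wk v m ∧ ∃ t, w = t ++ y :: η'} = (fun δ => δ ++ η') '' Wa y (m - η'.length) {z | z ∈ η'} := by
  have h3' : η'.getLast? = some v := by
    match η', h0 with
    | a :: s, _ => rwa [List.getLast?_cons_cons] at h3
  ext w
  constructor
  · rintro ⟨⟨k1, k2, k3, -⟩, t, rfl⟩
    have e : t ++ y :: η' = (t ++ [y]) ++ η' := by simp
    refine ⟨t ++ [y], ⟨⟨?_, ?_, ?_, by simp⟩, ?_⟩, e.symm⟩
    · simp at k1 ⊢
      omega
    · rw [e] at k2
      exact (List.nodup_append.1 k2).1
    · rw [e] at k3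
      exact (List.isChain_append.1 k3).1
    · intro z hz hz'
      rw [e] at k2
      exact (List.nodup_append.1 k2).2.2 z hz z hz' rfl
  · rintro ⟨δ, ⟨⟨k1, k2, k3, k4⟩, k5⟩, rfl⟩
    obtain ⟨t, rfl⟩ : ∃ t, δ = t ++ [y] := by
      rcases List.eq_nil_or_concat' δ with rfl | ⟨t, b, rfl⟩
      · simp at k4
      · simp at k4
        exact ⟨t, by rw [k4]⟩
    refine ⟨⟨?_, ?_, ?_, ?_⟩, t, by simp⟩
    · simp at k1 ⊢
      omega
    · simp only
      rw [List.nodup_append]
      exact ⟨k2, (List.nodup_cons.1 h1).2, fun a ha b hb hab => k5 a ha (by rw [hab]; exact hb)⟩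
    · simp only
      unfold HChain at *
      rw [List.isChain_append]
      refine ⟨k3, h2.tail, ?_⟩
      intro a ha b hb
      simp at ha
      subst ha
      match η', hb, h2 with
      | c :: s, hb, h2 =>
        simp at hb
        subst hb
        exact (List.isChain_cons_cons.1 h2).1
    · simp only
      rw [List.getLast?_append, h3']
      rfl

theorem start_ncard {v y : ℤ × ℤ} {m : ℕ} {η' : List (ℤ × ℤ)} (h0 : η' ≠ []) (h1 : (y :: η').Nodup)
    (h2 : HChain (y :: η')) (h3 : (y :: η').getLast? = some v) (hm : η'.length ≤ m) :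
    {w | w ∈ Wk v m ∧ ∃ t, w = t ++ y :: η'}.ncard = (Wa y (m - η'.length) {z | z ∈ η'}).ncard := by
  rw [start_eq h0 h1 h2 h3 hm]
  exact Set.ncard_image_of_injective _ (fun a b h => List.append_cancel_right h)

end Pool.Agent.EVN
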