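import Pool.Agent.EVN.A.Count

/-!
EVN, part A: `AEq`. One beginning `η` of `k` steps: the walks of the mixture from `v` which begin with `η` have probability
`x^k ev(η)` up to `O(x^k k / J)`.
-/

namespace Pool.Agent.EVN

open Finset Pool.Agent.Hhelper14.SAW Pool.Agent.RAT Pool.Agent.HHP
open scoped ENNReal

/-- Probability that the walk of the mixture from `v` begins with `η`. -/
noncomputable def Vo (n J : ℕ) (v : ℤ × ℤ) (η : List (ℤ × ℤ)) : ℝ≥0∞ :=
  (∑ j ∈ range J, xE ^ (n - j) * (({w | w ∈ Wk v (n - j) ∧ ∃ t, w = t ++ η}).ncard : ℝ≥0∞)) / Az n J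

lemma hon_headI {v : ℤ × ℤ} {K : ℕ} {η : List (ℤ × ℤ)} (h : Beg v K η) : hon η.headI := by
  obtain ⟨h1, -, -, h4, -⟩ := h
  match η, h1 with
  | a :: b :: s, _ => exact (List.isChain_cons_cons.1 h4).1.1

/-- One beginning. -/
theorem one_eq : ∃ C : ℕ, 1 ≤ C ∧ ∀ n J K : ℕ, 1 ≤ J → 32 * J ^ 5 ≤ n → K ≤ J → ∀ (v : ℤ × ℤ) (η : List (ℤ × ℤ)),
    Beg v K η →
    xE ^ (η.length - 1) * ev n J η.headI {z | z ∈ η.tail} ≤ Vo n J v η + C * (K / J) * xE ^ (η.length - 1) ∧
      Vo n J v η ≤ xE ^ (η.length - 1) * ev n J η.headI {z | z ∈ η.tail} + C * (K / J) * xE ^ (η.length - 1) := by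
  obtain ⟨C, hC, h⟩ := shiftE
  refine ⟨C, hC, fun n J K hJ hn hK v η hη => ?_⟩
  have hy := hon_headI hη
  obtain ⟨h1, h2, h3, h4, h5⟩ := hη
  match η, h1, h2, h3, h4, h5, hy with
  | y :: a :: s, h1, h2, h3, h4, h5, hy =>
    simp only [List.headI_cons, List.tail_cons, List.length_cons, Nat.add_sub_cancel] at *
    set k := s.length + 1 with hk
    have hkK : k ≤ K := by omega
    have hJ0 : (J : ℝ≥0∞) ≠ 0 := by exact_mod_cast (by omega : J ≠ 0)
    have hJt : (J : ℝ≥0∞) ≠ ∞ := ENNReal.natCast_ne_top J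
    have hnJ : 2 * J ≤ n := by
      have : J ≤ J ^ 5 := Nat.le_self_pow (by norm_num) _
      omega
    set f : ℕ → ℝ≥0∞ := fun i => xE ^ (n - i) * ((Wa y (n - i) {z | z ∈ a :: s}).ncard : ℝ≥0∞) with hf
    have hfle : ∀ i, i < 2 * J → f i ≤ tE (n - i) := fun i _ => by
      simp only [hf, tE]
      gcongr
      exact Wa_ncard_le hy _ _
    obtain ⟨g1, g2⟩ := h n J hJ hn f hfle k (hkK.trans hK)
    have hV : Vo n J v (y :: a :: s) = xE ^ k * ((∑ j ∈ range J, f (j + k)) / Az n J) := by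
      unfold Vo
      rw [← mul_div_assoc, mul_sum]
      congr 1
      refine sum_congr rfl fun j hj => ?_
      rw [mem_range] at hj
      rw [start_ncard (by simp) h3 h4 h5 (by simp only [List.length_cons]; omega)]
      simp only [hf, List.length_cons]
      rw [← mul_assoc, ← pow_add, show k + (n - (j + k)) = n - j by omega,
        show n - j - (s.length + 1) = n - (j + k) by omega]
    have hE : ev n J y {z | z ∈ a :: s} = (∑ j ∈ range J, f j) / Az n J := rfl
    have hA0 := Az_ne_zero n hJ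
    have hAt := Az_ne_top n J
    have key : ∀ X Y : ℝ≥0∞, X ≤ Y + C * (k / J) * Az n J →
        xE ^ k * (X / Az n J) ≤ xE ^ k * (Y / Az n J) + C * (K / J) * xE ^ k := by
      intro X Y hXY
      calc xE ^ k * (X / Az n J) ≤ xE ^ k * ((Y + C * (k / J) * Az n J) / Az n J) := by gcongr
        _ = xE ^ k * (Y / Az n J) + xE ^ k * (C * (k / J)) := by
            rw [ENNReal.add_div, mul_add, ENNReal.mul_div_cancel_right hA0 hAt]
        _ ≤ xE ^ k * (Y / Az n J) + xE ^ k * (C * (K / J)) := by gcongr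
        _ = _ := by ring
    rw [hV, hE]
    exact ⟨key _ _ g2, key _ _ g1⟩

lemma beg_finite (v : ℤ × ℤ) (K : ℕ) (hv : hon v) : {η | Beg v K η}.Finite := by
  refine (Set.Finite.biUnion (Set.finite_Iic K) fun m _ => Wk_finite hv m).subset ?_
  rintro η ⟨h1, h2, h3, h4, h5⟩
  simp only [Set.mem_iUnion]
  exact ⟨η.length - 1, by simp; omega, by omega, h3, h4, h5⟩

/-- Prefix free sets: the probabilities add up. -/
theorem Vm_eq {n J K : ℕ} {v : ℤ × ℤ} (hv : hon v) {X : Set (List (ℤ × ℤ))} (hX : PFr X) (hB : ∀ η ∈ X, Beg v K η) :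
    Vm n J v X = ∑' η : X, Vo n J v η.1 := by
  classical
  have hfin : X.Finite := (beg_finite v K hv).subset hB
  have := hfin.fintype
  rw [tsum_fintype]
  unfold Vm Vo
  simp only [div_eq_mul_inv]
  rw [← sum_mul, sum_comm]
  congr 1
  refine sum_congr rfl fun j _ => ?_
  rw [← mul_sum]
  congr 1
  have hF : ∀ η : X, ({w | w ∈ Wk v (n - j) ∧ ∃ t, w = t ++ η.1}).Finite := fun η =>
    (Wk_finite hv (n - j)).subset fun _ h => h.1
  have hd : ∀ η η' : X, η ≠ η' → ∀ w, (∃ t, w = t ++ η.1) → (∃ t, w = t ++ η'.1) → False := by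
    rintro ⟨η, hη⟩ ⟨η', hη'⟩ hne w ⟨t, rfl⟩ ⟨t', ht'⟩
    simp only at ht'
    have hne' : η ≠ η' := fun h => hne (Subtype.ext h)
    rcases List.append_eq_append_iff.1 ht' with ⟨a, ha, hb⟩ | ⟨a, ha, hb⟩
    · have := hX η' hη' a (by rw [← hb]; exact hη)
      subst this
      exact hne' (by simpa using hb)
    · have := hX η hη a (by rw [← hb]; exact hη')
      subst this
      exact hne' (by simpa using hb.symm)
  have hbig : ({w | w ∈ Wk v (n - j) ∧ ∃ t, ∃ η ∈ X, w = t ++ η}).Finite :=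
    (Wk_finite hv (n - j)).subset fun _ h => h.1
  rw [← Nat.cast_sum]
  congr 1
  rw [Set.ncard_eq_toFinset_card _ hbig]
  have e2 : hbig.toFinset = (Finset.univ : Finset X).biUnion fun η => (hF η).toFinset := by
    ext w
    simp only [Set.Finite.mem_toFinset, Set.mem_ofPred_eq, Finset.mem_biUnion, Finset.mem_univ, true_and]
    constructor
    · rintro ⟨hw, t, η, hη, rfl⟩
      exact ⟨⟨η, hη⟩, hw, t, rfl⟩
    · rintro ⟨⟨η, hη⟩, hw, t, rfl⟩
      exact ⟨hw, t, η, hη, rfl⟩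
  rw [e2, Finset.card_biUnion]
  · exact sum_congr rfl fun η _ => (Set.ncard_eq_toFinset_card _ (hF η)).symm
  · intro η _ η' _ hne
    rw [Function.onFun, Finset.disjoint_left]
    intro w hw hw'
    simp only [Set.Finite.mem_toFinset, Set.mem_ofPred_eq] at hw hw'
    exact hd η η' hne w hw.2 hw'.2

theorem aEq : AEq := by
  obtain ⟨C, -, h⟩ := one_eq
  refine ⟨C, 0, fun n J K hA hK v hv X hX hB => ?_⟩
  obtain ⟨-, hJ, hn⟩ := hA
  have hv' : hon v := by rcases hv with rfl | rfl <;> decide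
  rw [Vm_eq hv' hX hB]
  unfold Sv mass0
  rw [← ENNReal.tsum_mul_left, ← ENNReal.tsum_add, ← ENNReal.tsum_add]
  exact ⟨ENNReal.tsum_le_tsum fun η => (h n J K hJ hn hK v η.1 (hB _ η.2)).1,
    ENNReal.tsum_le_tsum fun η => (h n J K hJ hn hK v η.1 (hB _ η.2)).2⟩

end Pool.Agent.EVN
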