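import Pool.Agent.EVN.A.Sym

/-!
Project EVN, block A: THE LAW of the walks from `o'` of the mixture of the lengths `n - j` and `n' - j` (contract `ALaw`).
-/

namespace Pool.Agent.EVN

open Pool.Agent.Hhelper14.SAW Pool.Agent.HHP Pool.Agent.HEP Pool.Agent.PLY.G Pool.Agent.BEX.F
open scoped ENNReal

/-- The walks of `m` steps from `o'`, as a finite set. -/
noncomputable def OmF (m : ℕ) : Finset (List (ℤ × ℤ)) := (Wk_finite hon_o' m).toFinset

theorem mem_OmF {m : ℕ} {P : List (ℤ × ℤ)} : P ∈ OmF m ↔ P ∈ Wk o' m := by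
  unfold OmF
  rw [Set.Finite.mem_toFinset]

/-- The weights of the lengths. -/
noncomputable def wL (n J m : ℕ) : ℝ≥0∞ := if n < m + J ∧ m ≤ n then xE ^ m / Az n J else 0

theorem sum_wL {n J M : ℕ} (hJ : J ≤ n) (hM : n ≤ M) (N : ℕ → ℝ≥0∞) :
    ∑ m ∈ Finset.range (M + 1), wL n J m * N m =
      (∑ j ∈ Finset.range J, xE ^ (n - j) * N (n - j)) / Az n J := by
  classical
  have h1 : ∑ m ∈ Finset.range (M + 1), wL n J m * N m =
      ∑ m ∈ (Finset.range (M + 1)).filter (fun m => n < m + J ∧ m ≤ n), xE ^ m / Az n J * N m := by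
    rw [Finset.sum_filter]
    refine Finset.sum_congr rfl fun m _ => ?_
    unfold wL
    split_ifs with h
    · rfl
    · rw [zero_mul]
  have h2 : (Finset.range (M + 1)).filter (fun m => n < m + J ∧ m ≤ n) =
      (Finset.range J).image fun j => n - j := by
    ext m
    simp only [Finset.mem_filter, Finset.mem_range, Finset.mem_image]
    constructor
    · rintro ⟨h3, h4, h5⟩
      exact ⟨n - m, by omega, by omega⟩
    · rintro ⟨j, hj, rfl⟩
      omega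
  rw [h1, h2, Finset.sum_image fun a ha b hb hab => by
    have h3 : a < J := Finset.mem_range.1 ha
    have h4 : b < J := Finset.mem_range.1 hb
    have h5 : n - a = n - b := hab
    omega]
  rw [ENNReal.div_eq_inv_mul, Finset.mul_sum]
  refine Finset.sum_congr rfl fun j _ => ?_
  rw [ENNReal.div_eq_inv_mul, mul_assoc]

theorem OmF_disj : Set.PairwiseDisjoint Set.univ OmF := by
  intro a _ b _ hab
  rw [Function.onFun, Finset.disjoint_left]
  intro P h1 h2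
  have h3 := (mem_OmF.1 h1).1
  have h4 := (mem_OmF.1 h2).1
  omega

theorem sum_OmF (M : ℕ) (w : ℕ → ℝ≥0∞) (f : List (ℤ × ℤ) → ℝ≥0∞) :
    ∑ ω ∈ (Finset.range (M + 1)).biUnion OmF, w (ω.length - 1) * f ω =
      ∑ m ∈ Finset.range (M + 1), w m * ∑ ω ∈ OmF m, f ω := by
  rw [Finset.sum_biUnion (OmF_disj.subset (Set.subset_univ _))]
  refine Finset.sum_congr rfl fun m _ => ?_
  rw [Finset.mul_sum]
  refine Finset.sum_congr rfl fun ω hω => ?_
  rw [(mem_OmF.1 hω).1, Nat.add_sub_cancel]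

theorem sum_ind_OmF (m : ℕ) (S : Set (ℤ × ℤ)) :
    ∑ ω ∈ OmF m, ind (∀ z ∈ ω, z ∉ S) = ((Wa o' m S).ncard : ℝ≥0∞) := by
  classical
  have h1 : ∑ ω ∈ OmF m, ind (∀ z ∈ ω, z ∉ S) = (((OmF m).filter fun ω => ∀ z ∈ ω, z ∉ S).card : ℝ≥0∞) := by
    rw [Finset.card_filter]
    push_cast
    refine Finset.sum_congr rfl fun ω _ => ?_
    by_cases h : ∀ z ∈ ω, z ∉ S
    · rw [ind_true h, if_pos h]
    · rw [ind_false h, if_neg h]
  rw [h1, ← Set.ncard_coe_finset]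
  congr 2
  ext ω
  simp only [Finset.coe_filter, mem_OmF, Set.mem_setOf_eq, Wa]

theorem sum_one_OmF (m : ℕ) : ∑ _ω ∈ OmF m, (1 : ℝ≥0∞) = ((Wk o (m)).ncard : ℝ≥0∞) := by
  have h := sum_ind_OmF m ∅
  rw [Wa_empty, Wk_ncard hon_o'] at h
  rw [Wk_ncard hon_o, ← h]
  exact Finset.sum_congr rfl fun ω _ => (ind_true (by simp)).symm

/-- The weights of the law. -/
noncomputable def pL (n n' J : ℕ) (ω : List (ℤ × ℤ)) : ℝ≥0∞ :=
  (wL n J (ω.length - 1) + wL n' J (ω.length - 1)) / 2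

theorem sum_pL {n n' J : ℕ} (hJ : J ≤ n) (hn : n ≤ n') (f : List (ℤ × ℤ) → ℝ≥0∞) :
    ∑ ω ∈ (Finset.range (n' + 1)).biUnion OmF, pL n n' J ω * f ω =
      ((∑ j ∈ Finset.range J, xE ^ (n - j) * ∑ ω ∈ OmF (n - j), f ω) / Az n J +
      (∑ j ∈ Finset.range J, xE ^ (n' - j) * ∑ ω ∈ OmF (n' - j), f ω) / Az n' J) / 2 := by
  have h := sum_OmF n' (fun m => (wL n J m + wL n' J m) / 2) f
  unfold pL
  rw [h]
  have e : ∀ m, (wL n J m + wL n' J m) / 2 * ∑ ω ∈ OmF m, f ω =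
      (2 : ℝ≥0∞)⁻¹ * (wL n J m * ∑ ω ∈ OmF m, f ω + wL n' J m * ∑ ω ∈ OmF m, f ω) := by
    intro m
    rw [ENNReal.div_eq_inv_mul]
    ring
  rw [Finset.sum_congr rfl fun m _ => e m, ← Finset.mul_sum, Finset.sum_add_distrib, sum_wL hJ hn,
    sum_wL (hJ.trans hn) le_rfl, ENNReal.div_eq_inv_mul (b := 2)]

/-- **(A-law)** -/
theorem aLaw : ALaw := by
  refine ⟨0, fun n n' J hA hn => ?_⟩
  obtain ⟨-, hJ1, hJ5⟩ := hA
  have hJ : J ≤ n := by
    have h1 : J ≤ J ^ 5 := Nat.le_self_pow (by norm_num) J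
    omega
  have htot : ∑ ω ∈ (Finset.range (n' + 1)).biUnion OmF, pL n n' J ω = 1 := by
    have h := sum_pL hJ hn fun _ => 1
    simp only [mul_one] at h
    rw [h]
    simp only [sum_one_OmF]
    have h1 : (∑ j ∈ Finset.range J, xE ^ (n - j) * ((Wk o (n - j)).ncard : ℝ≥0∞)) / Az n J = 1 :=
      ENNReal.div_self (Az_ne_zero n hJ1) (Az_ne_top n J)
    have h2 : (∑ j ∈ Finset.range J, xE ^ (n' - j) * ((Wk o (n' - j)).ncard : ℝ≥0∞)) / Az n' J = 1 :=
      ENNReal.div_self (Az_ne_zero n' hJ1) (Az_ne_top n' J)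
    rw [h1, h2, one_add_one_eq_two]
    exact ENNReal.div_self (by norm_num) (by norm_num)
  refine ⟨⟨(Finset.range (n' + 1)).biUnion OmF, pL n n' J, htot, ?_, ?_⟩, fun S => ?_⟩
  · intro ω hω
    obtain ⟨m, -, hm⟩ := Finset.mem_biUnion.1 hω
    exact (mem_OmF.1 hm).2.2.1
  · intro ω hω
    obtain ⟨m, -, hm⟩ := Finset.mem_biUnion.1 hω
    exact (mem_OmF.1 hm).2.2.2
  · unfold Law.av
    have h := sum_pL hJ hn fun ω => ind (∀ z ∈ ω, z ∉ S)
    simp only [sum_ind_OmF] at h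
    rw [h]
    unfold ev
    exact ENNReal.mul_div_cancel (by norm_num) (by norm_num)

end Pool.Agent.EVN
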