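import Pool.Agent.EVN.A.Count
import Pool.Agent.HDN.Two

/-!
EVN, part A: the probability `PP n n'` is at most a constant times the probability that two walks of the mixtures of
lengths for `n` and for `n'` meet only at `o`.
-/

namespace Pool.Agent.EVN

open Finset Pool.Agent.Hhelper14.SAW Pool.Agent.RAT Pool.Agent.HHP
open scoped ENNReal

/-- Pairs of walks from `o` which meet only at `o`. -/
def DP (m m' : ℕ) : Set (List (ℤ × ℤ) × List (ℤ × ℤ)) :=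
  {q | q.1 ∈ Wk o m ∧ q.2 ∈ Wk o m' ∧ ∀ z ∈ q.1, z ∈ q.2 → z = o}

lemma pt_zero {m : ℕ} {P : List (ℤ × ℤ)} (h : IsWalk m P) : pt P 0 = o := (fw_pt h).1

lemma pt_mem {m : ℕ} {P : List (ℤ × ℤ)} (h : P.length = m + 1) {i : ℕ} (hi : i ≤ m) : pt P i ∈ P := by
  unfold pt
  rw [List.getD_eq_getElem _ _ (by simp; omega)]
  exact List.mem_reverse.1 (List.getElem_mem _)

lemma exists_pt {m : ℕ} {P : List (ℤ × ℤ)} (h : P.length = m + 1) {z : ℤ × ℤ} (hz : z ∈ P) : ∃ i ≤ m, pt P i = z := by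
  obtain ⟨i, hi, e⟩ := List.getElem_of_mem (List.mem_reverse.2 hz)
  simp at hi
  refine ⟨i, by omega, ?_⟩
  unfold pt
  rw [List.getD_eq_getElem _ _ (by simp; omega)]
  exact e

lemma DP_eq (m m' : ℕ) : DP m m' = Pool.Agent.HDN.PL m m' := by
  ext q
  constructor
  · rintro ⟨h1, h2, h3⟩
    refine ⟨h1, h2, fun i hi j hj hi0 heq => ?_⟩
    have e := h3 (pt q.1 i) (pt_mem h1.1 hi) (by rw [heq]; exact pt_mem h2.1 hj)
    exact hi0 ((fw_pt h1).2.2 i hi 0 (Nat.zero_le _) (by rw [e, pt_zero h1]))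
  · rintro ⟨h1, h2, h3⟩
    refine ⟨h1, h2, fun z hz hz' => ?_⟩
    obtain ⟨i, hi, e⟩ := exists_pt h1.1 hz
    obtain ⟨j, hj, e'⟩ := exists_pt h2.1 hz'
    by_contra hne
    refine h3 i hi j hj ?_ (e.trans e'.symm)
    rintro rfl
    exact hne (by rw [← e, pt_zero h1])

lemma DP_ncard (m m' : ℕ) : (DP m m').ncard = an (m + m') := by rw [DP_eq, Pool.Agent.HDN.PL_card]

lemma PP_tE (n n' : ℕ) : PP n n' = tE (n + n') / (tE n * tE n') := by
  unfold PP tE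
  have h0 := xE_ne.1
  have ht := xE_ne.2
  have e : xE ^ n * (an n : ℝ≥0∞) * (xE ^ n' * (an n' : ℝ≥0∞)) = xE ^ (n + n') * ((an n : ℝ≥0∞) * (an n' : ℝ≥0∞)) := by
    rw [pow_add]; ring
  rw [e, ENNReal.mul_div_mul_left _ _ (pow_ne_zero _ h0) (ENNReal.pow_ne_top ht)]

/-- The pair of walks of lengths `n`, `n'` against the mixtures. -/
theorem PP_le_mix : ∃ C : ℕ, 1 ≤ C ∧ ∀ n n' J : ℕ, 1 ≤ J → 32 * J ^ 5 ≤ n → n ≤ n' →
    PP n n' ≤ C * ((∑ i ∈ range J, ∑ j ∈ range J,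
      xE ^ (n - i) * xE ^ (n' - j) * ((DP (n - i) (n' - j)).ncard : ℝ≥0∞)) / (Az n J * Az n' J)) := by
  obtain ⟨C, hC, h⟩ := Az_cmp
  refine ⟨C ^ 3, Nat.one_le_pow _ _ hC, fun n n' J hJ hn hnn => ?_⟩
  obtain ⟨-, h2, -, -⟩ := h n J hn
  obtain ⟨-, h2', -, -⟩ := h n' J (hn.trans hnn)
  obtain ⟨-, -, h4, -⟩ := h (n + n') J (hn.trans (Nat.le_add_right _ _))
  have hJ0 : (J : ℝ≥0∞) ≠ 0 := by exact_mod_cast (by omega : J ≠ 0)
  have hJt : (J : ℝ≥0∞) ≠ ∞ := ENNReal.natCast_ne_top J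
  have hnJ : 2 * J ≤ n := by
    have : J ≤ J ^ 5 := Nat.le_self_pow (by norm_num) _
    omega
  have e : ∀ i ∈ range J, ∀ j ∈ range J,
      xE ^ (n - i) * xE ^ (n' - j) * ((DP (n - i) (n' - j)).ncard : ℝ≥0∞) = tE (n + n' - (i + j)) := by
    intro j hj j' hj'
    rw [mem_range] at hj hj'
    rw [DP_ncard, ← pow_add]
    unfold tE
    rw [show n + n' - (j + j') = n - j + (n' - j') by omega]
  have s1 : (J : ℝ≥0∞) ^ 2 * tE (n + n') ≤ C * ∑ i ∈ range J, ∑ j ∈ range J,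
      xE ^ (n - i) * xE ^ (n' - j) * ((DP (n - i) (n' - j)).ncard : ℝ≥0∞) := by
    rw [mul_sum]
    calc (J : ℝ≥0∞) ^ 2 * tE (n + n') = ∑ _j ∈ range J, ∑ _j' ∈ range J, tE (n + n') := by
          simp only [sum_const, card_range, nsmul_eq_mul]; ring
      _ ≤ _ := sum_le_sum fun j hj => by
          rw [mul_sum]
          refine sum_le_sum fun j' hj' => ?_
          rw [e j hj j' hj']
          rw [mem_range] at hj hj'
          exact (h4 _ (by omega)).1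
  set S := ∑ i ∈ range J, ∑ j ∈ range J,
      xE ^ (n - i) * xE ^ (n' - j) * ((DP (n - i) (n' - j)).ncard : ℝ≥0∞) with hS
  have hA0 : Az n J * Az n' J ≠ 0 := mul_ne_zero (Az_ne_zero n hJ) (Az_ne_zero n' hJ)
  have hAt : Az n J * Az n' J ≠ ∞ := ENNReal.mul_ne_top (Az_ne_top n J) (Az_ne_top n' J)
  rw [PP_tE]
  refine ENNReal.div_le_of_le_mul ?_
  have q1 : tE (n + n') ≤ ((J : ℝ≥0∞) ^ 2)⁻¹ * (C * S) := by
    calc tE (n + n') = ((J : ℝ≥0∞) ^ 2)⁻¹ * (J ^ 2 * tE (n + n')) := by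
          rw [← mul_assoc, ENNReal.inv_mul_cancel (pow_ne_zero 2 hJ0) (ENNReal.pow_ne_top hJt), one_mul]
      _ ≤ _ := by gcongr
  have q2 : (1 : ℝ≥0∞) ≤ (C ^ 2 * (J ^ 2 * (tE n * tE n'))) / (Az n J * Az n' J) := by
    rw [ENNReal.le_div_iff_mul_le (Or.inl hA0) (Or.inl hAt), one_mul]
    calc Az n J * Az n' J ≤ (C * (J * tE n)) * (C * (J * tE n')) := by gcongr
      _ = _ := by ring
  calc tE (n + n') ≤ ((J : ℝ≥0∞) ^ 2)⁻¹ * (C * S) * 1 := by rw [mul_one]; exact q1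
    _ ≤ ((J : ℝ≥0∞) ^ 2)⁻¹ * (C * S) * ((C ^ 2 * (J ^ 2 * (tE n * tE n'))) / (Az n J * Az n' J)) := by gcongr
    _ = (((J : ℝ≥0∞) ^ 2)⁻¹ * J ^ 2) * (C ^ 3 * (S / (Az n J * Az n' J)) * (tE n * tE n')) := by
        simp only [div_eq_mul_inv]; ring
    _ = _ := by
        rw [ENNReal.inv_mul_cancel (pow_ne_zero 2 hJ0) (ENNReal.pow_ne_top hJt), one_mul]
        push_cast
        rfl

end Pool.Agent.EVN
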