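import Pool.Agent.RAT.B.Cmp
import Pool.Agent.HHP.Mass

/-!
EVN, part A: comparison of `a_(n-j)` with `a_n`, `a_m = c_m / mu^m`, for `j` at most a small power of `n`.
-/

namespace Pool.Agent.EVN

open Pool.Agent.Hhelper14.SAW Pool.Agent.RAT Pool.Agent.HHP
open scoped ENNReal

/-- Normalised numbers of walks. -/
noncomputable def ta (m : ℕ) : ℝ := (an m : ℝ) / mu ^ m

lemma ta_pos (m : ℕ) : 0 < ta m := by
  have h := cn_pos_of false m
  rw [cn_false] at h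
  exact div_pos (by exact_mod_cast h) (pow_pos mu_pos m)

/-- Comparison of the normalised numbers of walks. -/
theorem ta_cmp : ∃ C : ℝ, 1 ≤ C ∧ ∀ n j : ℕ, j ^ 5 + j ≤ n → ta n ≤ C * ta (n - j) ∧ ta (n - j) ≤ C * ta n := by
  obtain ⟨c, C, hc, hC, h⟩ := cmp_plane
  refine ⟨max 1 (max C (1 / c)), le_max_left _ _, fun n j hj => ?_⟩
  have k1 : (1 : ℝ) ≤ max 1 (max C (1 / c)) := le_max_left _ _
  have k2 : C ≤ max 1 (max C (1 / c)) := (le_max_left _ _).trans (le_max_right _ _)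
  have k3 : 1 / c ≤ max 1 (max C (1 / c)) := (le_max_right _ _).trans (le_max_right _ _)
  rcases Nat.eq_zero_or_pos j with rfl | hj0
  · have := ta_pos n
    simp only [Nat.sub_zero]
    constructor <;> nlinarith
  obtain ⟨N, rfl⟩ : ∃ N, n = N + j := ⟨n - j, by omega⟩
  obtain ⟨h1, h2⟩ := h j N hj0 (by omega)
  rw [Nat.add_sub_cancel]
  have hm : 0 < mu ^ j := pow_pos mu_pos j
  have hM : 0 < mu ^ N := pow_pos mu_pos N
  have e1 : ta (N + j) = (an (N + j) : ℝ) / mu ^ j / mu ^ N := by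
    unfold ta; rw [pow_add, div_div, mul_comm (mu ^ j)]
  have g1 : ta (N + j) ≤ C * ta N := by
    rw [e1]
    unfold ta
    rw [div_le_iff₀ hM, div_le_iff₀ hm]
    calc (an (N + j) : ℝ) ≤ C * mu ^ j * an N := h2
      _ = _ := by field_simp
  have g2 : c * ta N ≤ ta (N + j) := by
    rw [e1]
    unfold ta
    rw [le_div_iff₀ hM, le_div_iff₀ hm]
    calc c * ((an N : ℝ) / mu ^ N) * mu ^ N * mu ^ j = c * mu ^ j * an N := by field_simp
      _ ≤ _ := h1
  constructor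
  · exact g1.trans (mul_le_mul_of_nonneg_right k2 (ta_pos N).le)
  · have : ta N ≤ (1 / c) * ta (N + j) := by
      rw [one_div, ← div_eq_inv_mul, le_div_iff₀ hc]
      linarith
    exact this.trans (mul_le_mul_of_nonneg_right k3 (ta_pos _).le)

/-- The same in `ℝ≥0∞`. -/
noncomputable def tE (m : ℕ) : ℝ≥0∞ := xE ^ m * (an m : ℝ≥0∞)

lemma tE_eq (m : ℕ) : tE m = ENNReal.ofReal (ta m) := by
  unfold tE ta xE xc
  rw [← ENNReal.ofReal_pow (by have := mu_pos; positivity), ← ENNReal.ofReal_natCast, ← ENNReal.ofReal_mul (by have := mu_pos; positivity)]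
  congr 1
  rw [one_div, inv_pow]
  field_simp

lemma tE_ne_top (m : ℕ) : tE m ≠ ∞ := by rw [tE_eq]; exact ENNReal.ofReal_ne_top

lemma tE_ne_zero (m : ℕ) : tE m ≠ 0 := by
  rw [tE_eq]; exact (ENNReal.ofReal_pos.2 (ta_pos m)).ne'

theorem tE_cmp : ∃ C : ℕ, 1 ≤ C ∧ ∀ n j : ℕ, j ^ 5 + j ≤ n → tE n ≤ C * tE (n - j) ∧ tE (n - j) ≤ C * tE n := by
  obtain ⟨C, hC, h⟩ := ta_cmp
  refine ⟨⌈C⌉₊, Nat.one_le_ceil_iff.2 (by linarith), fun n j hj => ?_⟩
  obtain ⟨h1, h2⟩ := h n j hj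
  have hc : C ≤ (⌈C⌉₊ : ℝ) := Nat.le_ceil C
  have key : ∀ a b : ℝ, 0 ≤ b → a ≤ C * b → ENNReal.ofReal a ≤ (⌈C⌉₊ : ℝ≥0∞) * ENNReal.ofReal b := by
    intro a b hb hab
    rw [← ENNReal.ofReal_natCast, ← ENNReal.ofReal_mul (by positivity)]
    exact ENNReal.ofReal_le_ofReal (hab.trans (mul_le_mul_of_nonneg_right hc hb))
  rw [tE_eq, tE_eq]
  exact ⟨key _ _ (ta_pos _).le h1, key _ _ (ta_pos _).le h2⟩

/-- Polynomial bound. -/
theorem tE_poly : ∃ C K : ℕ, ∀ m : ℕ, tE m ≤ C * ((m : ℝ≥0∞) + 1) ^ K := by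
  obtain ⟨K, hK, -, up⟩ := an_bounds
  refine ⟨⌈K⌉₊ + 1, ⌈K⌉₊, fun m => ?_⟩
  have hK' : K ≤ (⌈K⌉₊ : ℝ) := Nat.le_ceil K
  have key : ta m ≤ ((⌈K⌉₊ : ℝ) + 1) * ((m : ℝ) + 1) ^ ⌈K⌉₊ := by
    have h1 : (1 : ℝ) ≤ (m : ℝ) + 1 := by have := Nat.cast_nonneg (α := ℝ) m; linarith
    have h2 : (1 : ℝ) ≤ ((m : ℝ) + 1) ^ ⌈K⌉₊ := one_le_pow₀ h1
    have hp : 0 < mu ^ m := pow_pos mu_pos m
    unfold ta
    rw [div_le_iff₀ hp]
    rcases Nat.eq_zero_or_pos m with rfl | hm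
    · have h0 : an 0 = 1 := by
        unfold an
        have : {P | IsWalk 0 P} = {[o]} := by
          ext P
          constructor
          · rintro ⟨h1, -, -, h4⟩
            match P, h1 with
            | [x], _ =>
              simp only [List.getLast?_singleton, Option.some.injEq] at h4
              simp [h4]
          · rintro rfl
            refine ⟨rfl, by simp, by simp [HChain], rfl⟩
        rw [this, Set.ncard_singleton]
      rw [h0]
      simp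
    · refine (up m hm).trans ?_
      refine mul_le_mul_of_nonneg_right ?_ hp.le
      have h3 : (m : ℝ) ^ K ≤ ((m : ℝ) + 1) ^ ⌈K⌉₊ := by
        calc (m : ℝ) ^ K ≤ ((m : ℝ) + 1) ^ K := Real.rpow_le_rpow (by positivity) (by linarith) hK.le
          _ ≤ ((m : ℝ) + 1) ^ (⌈K⌉₊ : ℝ) := Real.rpow_le_rpow_of_exponent_le h1 hK'
          _ = _ := by rw [Real.rpow_natCast]
      exact mul_le_mul (by linarith) h3 (by positivity) (by positivity)
  rw [tE_eq]
  calc ENNReal.ofReal (ta m) ≤ ENNReal.ofReal (((⌈K⌉₊ : ℝ) + 1) * ((m : ℝ) + 1) ^ ⌈K⌉₊) :=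
        ENNReal.ofReal_le_ofReal key
    _ = _ := by
      rw [ENNReal.ofReal_mul (by positivity), ENNReal.ofReal_pow (by positivity),
        ENNReal.ofReal_add (by positivity) (by norm_num), ENNReal.ofReal_add (by positivity) (by norm_num)]
      simp

end Pool.Agent.EVN
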