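import Pool.Agent.EVN.Stmt
import Pool.Agent.EVN.A.Shift

/-!
Project EVN, block A: THE SYMMETRIES (contract `ASym`), `ev ≤ 1`, monotonicity of `ev` in the obstacle.
-/

namespace Pool.Agent.EVN

open Pool.Agent.Hhelper14.SAW Pool.Agent.HHP Pool.Agent.HEP Pool.Agent.PLY.G Pool.Agent.BEX.F
open scoped ENNReal

/-! ### elementary facts -/

theorem Wa_empty (v : ℤ × ℤ) (n : ℕ) : Wa v n ∅ = Wk v n := by
  ext P
  simp [Wa]

/-! ### symmetries -/

/-- A bijection which preserves adjacency. -/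
structure Iso (g : (ℤ × ℤ) → (ℤ × ℤ)) : Prop where
  bij : Function.Bijective g
  adj : ∀ x y, Adj (g x) (g y) ↔ Adj x y

theorem Iso.chain {g : (ℤ × ℤ) → (ℤ × ℤ)} (hg : Iso g) (P : List (ℤ × ℤ)) : HChain (P.map g) ↔ HChain P := by
  unfold HChain
  rw [List.isChain_map]
  constructor
  · exact fun h => h.imp fun x y hh => (hg.adj x y).1 hh
  · exact fun h => h.imp fun x y hh => (hg.adj x y).2 hh

theorem Iso.mem_Wk {g : (ℤ × ℤ) → (ℤ × ℤ)} (hg : Iso g) (v : ℤ × ℤ) (n : ℕ) (P : List (ℤ × ℤ)) :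
    P.map g ∈ Wk (g v) n ↔ P ∈ Wk v n := by
  unfold Wk
  simp only [Set.mem_setOf_eq, List.length_map, List.nodup_map_iff hg.bij.1, hg.chain P, List.getLast?_map]
  refine and_congr_right fun _ => and_congr_right fun _ => and_congr_right fun _ => ?_
  constructor
  · intro h
    obtain ⟨a, ha, hga⟩ := Option.map_eq_some_iff.1 h
    rw [ha, hg.bij.1 hga]
  · intro h
    rw [h]
    rfl

theorem Iso.Wa_image {g : (ℤ × ℤ) → (ℤ × ℤ)} (hg : Iso g) (v : ℤ × ℤ) (n : ℕ) (S : Set (ℤ × ℤ)) :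
    Wa (g v) n (g '' S) = (fun P => P.map g) '' Wa v n S := by
  ext Q
  constructor
  · rintro ⟨h1, h2⟩
    obtain ⟨g', hg1, hg2⟩ := Function.bijective_iff_has_inverse.1 hg.bij
    have e : (Q.map g').map g = Q := by
      rw [List.map_map]
      conv_rhs => rw [← List.map_id Q]
      refine List.map_congr_left fun x _ => ?_
      exact hg2 x
    refine ⟨Q.map g', ⟨?_, ?_⟩, e⟩
    · rw [← hg.mem_Wk, e]
      exact h1
    · intro z hz hzS
      have h3 : g z ∈ Q := by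
        rw [← e]
        exact List.mem_map_of_mem hz
      exact h2 _ h3 ⟨z, hzS, rfl⟩
  · rintro ⟨P, ⟨h1, h2⟩, rfl⟩
    refine ⟨(hg.mem_Wk v n P).2 h1, ?_⟩
    intro z hz
    obtain ⟨x, hx, rfl⟩ := List.mem_map.1 hz
    rintro ⟨y, hy, hyx⟩
    rw [hg.bij.1 hyx] at hy
    exact h2 x hx hy

theorem Iso.ncard_Wa {g : (ℤ × ℤ) → (ℤ × ℤ)} (hg : Iso g) (v : ℤ × ℤ) (n : ℕ) (S : Set (ℤ × ℤ)) :
    (Wa (g v) n (g '' S)).ncard = (Wa v n S).ncard := by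
  rw [hg.Wa_image]
  exact Set.ncard_image_of_injective _ (List.map_injective_iff.2 hg.bij.1)

theorem Iso.ncard_Wk {g : (ℤ × ℤ) → (ℤ × ℤ)} (hg : Iso g) (v : ℤ × ℤ) (n : ℕ) :
    (Wk (g v) n).ncard = (Wk v n).ncard := by
  have h := hg.ncard_Wa v n ∅
  rwa [Set.image_empty, Wa_empty, Wa_empty] at h

theorem Iso.ev_eq {g : (ℤ × ℤ) → (ℤ × ℤ)} (hg : Iso g) (n J : ℕ) (v : ℤ × ℤ) (S : Set (ℤ × ℤ)) :
    ev n J (g v) (g '' S) = ev n J v S := by
  unfold ev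
  congr 1
  exact Finset.sum_congr rfl fun j _ => by rw [hg.ncard_Wa]

theorem iso_tr {a b : ℤ} (h : (a - b) % 3 = 0) : Iso fun z => z + (a, b) := by
  refine ⟨⟨fun x y hxy => add_right_cancel hxy, fun y => ⟨y - (a, b), by simp⟩⟩, ?_⟩
  rintro ⟨x1, x2⟩ ⟨y1, y2⟩
  simp only [Adj, hon, Prod.mk_add_mk, Prod.mk_sub_mk, U]
  omega

theorem iso_ro : Iso fun z => (-1, 0) - z := by
  refine ⟨⟨fun x y hxy => by simpa using hxy, fun y => ⟨(-1, 0) - y, by simp⟩⟩, ?_⟩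
  rintro ⟨x1, x2⟩ ⟨y1, y2⟩
  simp only [Adj, hon, Prod.mk_sub_mk, U]
  omega

theorem iso_ro3 : Iso fun z => L (L z) := by
  refine ⟨⟨fun x y hxy => ?_, fun y => ⟨(y.2, -y.1 - y.2), ?_⟩⟩, ?_⟩
  · obtain ⟨x1, x2⟩ := x
    obtain ⟨y1, y2⟩ := y
    simp only [L, Prod.mk.injEq] at hxy
    ext <;> simp only <;> omega
  · obtain ⟨y1, y2⟩ := y
    simp only [L, Prod.mk.injEq]
    omega
  · rintro ⟨x1, x2⟩ ⟨y1, y2⟩
    simp only [Adj, hon, L, Prod.mk_sub_mk, U]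
    omega

theorem Sy.iso {g : (ℤ × ℤ) → (ℤ × ℤ)} (h : Sy g) : Iso g := by
  cases h with
  | tr a b h => exact iso_tr h
  | ro => exact iso_ro
  | ro3 => exact iso_ro3

/-- **(A-sym)** -/
theorem aSym : ASym := fun n J _ hg v S _ => hg.iso.ev_eq n J v S

/-- The numbers of walks from `o'` and from `o` agree. -/
theorem ncard_Wk_o' (n : ℕ) : (Wk o' n).ncard = (Wk o n).ncard := by
  have h := iso_ro.ncard_Wk o n
  have e : ((-1, 0) : ℤ × ℤ) - o = o' := by decide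
  simp only [e] at h
  exact h

/-! ### monotonicity in the obstacle -/

theorem ev_anti {n J : ℕ} {v : ℤ × ℤ} (hv : hon v) {S T : Set (ℤ × ℤ)} (h : S ⊆ T) : ev n J v T ≤ ev n J v S := by
  unfold ev
  refine ENNReal.div_le_div_right (Finset.sum_le_sum fun j _ => ?_) _
  have := Wa_anti hv (n - j) h
  gcongr

theorem ev_empty (n : ℕ) {J : ℕ} (hJ : 1 ≤ J) {v : ℤ × ℤ} (hv : hon v) : ev n J v ∅ = 1 := by
  unfold ev
  have e : ∑ j ∈ Finset.range J, xE ^ (n - j) * ((Wa v (n - j) ∅).ncard : ℝ≥0∞) = Az n J := by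
    unfold Az
    refine Finset.sum_congr rfl fun j _ => ?_
    rw [Wa_empty, Wk_ncard hv, Wk_ncard hon_o]
  rw [e]
  exact ENNReal.div_self (Az_ne_zero n hJ) (Az_ne_top n J)

theorem ev_le_one (n : ℕ) {J : ℕ} (hJ : 1 ≤ J) {v : ℤ × ℤ} (hv : hon v) (S : Set (ℤ × ℤ)) : ev n J v S ≤ 1 := by
  rw [← ev_empty n hJ hv]
  exact ev_anti hv (Set.empty_subset S)

end Pool.Agent.EVN
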