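import Pool.Agent.EVN.A.Eq
import Pool.Agent.EVN.A.Pair

/-!
EVN, part A: `AUp`. The pairs of walks which meet only at `o` begin with the pairs of a set `Q` of pairs of beginnings.
-/

namespace Pool.Agent.EVN

open Finset Pool.Agent.Hhelper14.SAW Pool.Agent.RAT Pool.Agent.HHP
open scoped ENNReal

/-- The walks of `m` steps from `v` which begin with `η`. -/
def Sb (v : ℤ × ℤ) (m : ℕ) (η : List (ℤ × ℤ)) : Set (List (ℤ × ℤ)) := {w | w ∈ Wk v m ∧ ∃ t, w = t ++ η}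

lemma Sb_finite {v : ℤ × ℤ} (hv : hon v) (m : ℕ) (η : List (ℤ × ℤ)) : (Sb v m η).Finite :=
  (Wk_finite hv m).subset fun _ h => h.1

theorem aUp : AUp := by
  classical
  obtain ⟨C1, hC1, h1⟩ := PP_le_mix
  obtain ⟨C2, hC2, h2⟩ := one_eq
  refine ⟨C1 + C2, 0, fun n n' J K hA hnn hK Q hQ hcov => ?_⟩
  obtain ⟨-, hJ, hn⟩ := hA
  have hn' : 32 * J ^ 5 ≤ n' := hn.trans hnn
  have hfin : Q.Finite := by
    refine ((beg_finite o K hon_o).prod (beg_finite o K hon_o)).subset fun q hq => ?_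
    exact ⟨(hQ q hq).1, (hQ q hq).2⟩
  have := hfin.fintype
  rw [tsum_fintype]
  -- the covering of the pairs
  have hdp : ∀ i ∈ range J, ∀ j ∈ range J, ((DP (n - i) (n' - j)).ncard : ℝ≥0∞) ≤
      ∑ q : Q, ((Sb o (n - i) q.1.1).ncard : ℝ≥0∞) * ((Sb o (n' - j) q.1.2).ncard : ℝ≥0∞) := by
    intro i hi j hj
    rw [mem_range] at hi hj
    have hsub : DP (n - i) (n' - j) ⊆
        ⋃ q ∈ (Finset.univ : Finset Q), Sb o (n - i) q.1.1 ×ˢ Sb o (n' - j) q.1.2 := by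
      rintro ⟨w, w'⟩ ⟨hw, hw', hd⟩
      obtain ⟨q, hq, t, t', e, e'⟩ := hcov i j hi hj w hw w' hw' hd
      simp only [Set.mem_iUnion]
      exact ⟨⟨q, hq⟩, Finset.mem_univ _, ⟨hw, t, e⟩, ⟨hw', t', e'⟩⟩
    have hF : (⋃ q ∈ (Finset.univ : Finset Q), Sb o (n - i) q.1.1 ×ˢ Sb o (n' - j) q.1.2).Finite :=
      Set.Finite.biUnion (Finset.finite_toSet _) fun q _ => (Sb_finite hon_o _ _).prod (Sb_finite hon_o _ _)
    have hle := (Set.ncard_le_ncard hsub hF).trans (Finset.set_ncard_biUnion_le _ _)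
    calc ((DP (n - i) (n' - j)).ncard : ℝ≥0∞)
        ≤ ((∑ q : Q, (Sb o (n - i) q.1.1 ×ˢ Sb o (n' - j) q.1.2).ncard : ℕ) : ℝ≥0∞) := by exact_mod_cast hle
      _ = _ := by
          rw [Nat.cast_sum]
          refine sum_congr rfl fun q _ => ?_
          rw [Set.ncard_prod]
          push_cast
          rfl
  have hmix : (∑ i ∈ range J, ∑ j ∈ range J, xE ^ (n - i) * xE ^ (n' - j) * ((DP (n - i) (n' - j)).ncard : ℝ≥0∞)) /
      (Az n J * Az n' J) ≤ ∑ q : Q, Vo n J o q.1.1 * Vo n' J o q.1.2 := by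
    have e : ∑ i ∈ range J, ∑ j ∈ range J, xE ^ (n - i) * xE ^ (n' - j) * ((DP (n - i) (n' - j)).ncard : ℝ≥0∞) ≤
        ∑ q : Q, (∑ i ∈ range J, xE ^ (n - i) * ((Sb o (n - i) q.1.1).ncard : ℝ≥0∞)) *
          ∑ j ∈ range J, xE ^ (n' - j) * ((Sb o (n' - j) q.1.2).ncard : ℝ≥0∞) := by
      calc ∑ i ∈ range J, ∑ j ∈ range J, xE ^ (n - i) * xE ^ (n' - j) * ((DP (n - i) (n' - j)).ncard : ℝ≥0∞)
          ≤ ∑ i ∈ range J, ∑ j ∈ range J, ∑ q : Q,
              (xE ^ (n - i) * ((Sb o (n - i) q.1.1).ncard : ℝ≥0∞)) *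
                (xE ^ (n' - j) * ((Sb o (n' - j) q.1.2).ncard : ℝ≥0∞)) := by
            refine sum_le_sum fun i hi => sum_le_sum fun j hj => ?_
            calc xE ^ (n - i) * xE ^ (n' - j) * ((DP (n - i) (n' - j)).ncard : ℝ≥0∞)
                ≤ xE ^ (n - i) * xE ^ (n' - j) *
                    ∑ q : Q, ((Sb o (n - i) q.1.1).ncard : ℝ≥0∞) * ((Sb o (n' - j) q.1.2).ncard : ℝ≥0∞) := by
                  gcongr
                  exact hdp i hi j hj
              _ = _ := by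
                  rw [mul_sum]
                  exact sum_congr rfl fun q _ => by ring
        _ = _ := by
            have e1 : ∀ i ∈ range J, (∑ j ∈ range J, ∑ q : Q,
                (xE ^ (n - i) * ((Sb o (n - i) q.1.1).ncard : ℝ≥0∞)) *
                  (xE ^ (n' - j) * ((Sb o (n' - j) q.1.2).ncard : ℝ≥0∞))) =
                ∑ q : Q, ∑ j ∈ range J,
                (xE ^ (n - i) * ((Sb o (n - i) q.1.1).ncard : ℝ≥0∞)) *
                  (xE ^ (n' - j) * ((Sb o (n' - j) q.1.2).ncard : ℝ≥0∞)) := fun i _ => sum_comm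
            rw [sum_congr rfl e1, sum_comm]
            exact sum_congr rfl fun q _ => (sum_mul_sum _ _ _ _).symm
    have hA0 := Az_ne_zero n hJ
    have hAt := Az_ne_top n J
    calc _ ≤ (∑ q : Q, (∑ i ∈ range J, xE ^ (n - i) * ((Sb o (n - i) q.1.1).ncard : ℝ≥0∞)) *
          ∑ j ∈ range J, xE ^ (n' - j) * ((Sb o (n' - j) q.1.2).ncard : ℝ≥0∞)) / (Az n J * Az n' J) := by
          gcongr
      _ = _ := by
          rw [div_eq_mul_inv, sum_mul]
          refine sum_congr rfl fun q _ => ?_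
          unfold Vo
          rw [ENNReal.mul_inv (Or.inl hA0) (Or.inl hAt)]
          simp only [div_eq_mul_inv, Sb]
          ring
  refine (h1 n n' J hJ hn hnn).trans ?_
  have hC1' : (C1 : ℝ≥0∞) ≤ ((C1 + C2 : ℕ) : ℝ≥0∞) := by exact_mod_cast Nat.le_add_right _ _
  have hC2' : (C2 : ℝ≥0∞) ≤ ((C1 + C2 : ℕ) : ℝ≥0∞) := by exact_mod_cast Nat.le_add_left _ _
  refine mul_le_mul' hC1' (hmix.trans (sum_le_sum fun q _ => mul_le_mul' ?_ ?_))
  · refine (h2 n J K hJ hn hK o q.1.1 (hQ _ q.2).1).2.trans ?_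
    calc _ = xE ^ (q.1.1.length - 1) * (ev n J q.1.1.headI {z | z ∈ q.1.1.tail} + C2 * (K / J)) := by ring
      _ ≤ _ := by gcongr
  · refine (h2 n' J K hJ hn' hK o q.1.2 (hQ _ q.2).2).2.trans ?_
    calc _ = xE ^ (q.1.2.length - 1) * (ev n' J q.1.2.headI {z | z ∈ q.1.2.tail} + C2 * (K / J)) := by ring
      _ ≤ _ := by gcongr

end Pool.Agent.EVN
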